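import Pool.Agent.helper1.CD.Spec

set_option autoImplicit false

open NumberField IsDedekindDomain Complex Pool.Agent.CH Pool.Agent.GK

namespace Pool.Agent.CD

theorem GDN_adj (M : Type) [Field M] (z : M) : Algebra.adjoin M {z} = ⊤ := by
  rw [eq_top_iff]
  intro x _
  exact Subalgebra.algebraMap_mem (Algebra.adjoin M {z}) x

theorem GDN_fin (D : ℕ) (hD : 0 < D) : {p : Nat.Primes | (p : ℕ) ∣ D}.Finite := by
  refine Set.Finite.subset ((Set.finite_Iic D).preimage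
    (f := fun p : Nat.Primes => (p : ℕ)) Nat.Primes.coe_nat_injective.injOn) ?_
  intro p hp
  exact Nat.le_of_dvd hD hp

theorem GDN (hPAD : PAD_stmt) (hCNT : CNT_stmt) (hPRS : PRS_stmt) (hFRB : Pool.Agent.CH.FRB_stmt) :
    GDN_stmt := by
  classical
  intro K M _ _ _ _ _ _ m r z g hm hz hgz hg
  obtain ⟨hadj, ⟨g', hg'⟩, -⟩ := hFRB K M M m r z g g hm hz (fun x => rfl) hgz hg (GDN_adj M z)
  obtain ⟨C, δ, hδ, hP⟩ := hPAD (IntermediateField.fixedField (Subgroup.zpowers g)) M m r z g' hm hz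
    hadj (by rw [hg']; exact hgz)
  obtain ⟨D, hD, hN⟩ := hCNT K M m r z g hm hz hgz hg
  have hrank : Module.finrank (IntermediateField.fixedField (Subgroup.zpowers g)) M = orderOf g := by
    rw [IntermediateField.finrank_fixedField_eq_card, Nat.card_zpowers]
  obtain ⟨nF, hnF⟩ : ∃ nF : ℕ → ℕ, nF =
    fun p => nd (IntermediateField.fixedField (Subgroup.zpowers g)) p := ⟨_, rfl⟩
  obtain ⟨cg, hcg⟩ : ∃ cg : ℕ, cg = Nat.card {h : M ≃ₐ[K] M // h * g = g * h} := ⟨_, rfl⟩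
  obtain ⟨cv, hcv⟩ : ∃ cv : ℕ → ℕ, cv =
    fun p => Nat.card {v : Pl K // v ∈ Fp K M g ∧ nv K v = p} := ⟨_, rfl⟩
  have hN' : ∀ p : ℕ, p.Prime → ¬ p ∣ D → p ≡ r [MOD m] → orderOf g * nF p ≤ cg * cv p := by
    intro p hp hpD hpr
    rw [hnF, hcg, hcv]
    exact hN p hp hpD hpr
  have hfin := GDN_fin D hD
  have hsum2 : Summable (fun p : Nat.Primes =>
      if (p : ℕ) ∣ D then (orderOf g : ℝ) * (nF p : ℝ) else 0) := by
    refine summable_of_finite_support (hfin.subset ?_)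
    intro p hp
    by_contra hc
    rw [Function.mem_support] at hp
    exact hp (if_neg hc)
  refine ⟨C + ∑' p : Nat.Primes, (if (p : ℕ) ∣ D then (orderOf g : ℝ) * (nF p : ℝ) else 0), δ, hδ,
    fun s hs1 hs2 => ?_⟩
  have h1 := hP s hs1 hs2
  rw [hrank] at h1
  obtain ⟨hS, hDS⟩ := (hPRS K).2 (Fp K M g) s hs1 (fun v hv => hv.1)
  have hS' : Summable (fun p : Nat.Primes => (cv p : ℝ) * ((p : ℕ) : ℝ) ^ (-s)) := by
    rw [hcv]
    exact hS
  have hDS' : DS K (Fp K M g) s = ∑' p : Nat.Primes, (cv p : ℝ) * ((p : ℕ) : ℝ) ^ (-s) := by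
    rw [hcv]
    exact hDS
  have hpw : ∀ p : Nat.Primes, 0 ≤ ((p : ℕ) : ℝ) ^ (-s) ∧ ((p : ℕ) : ℝ) ^ (-s) ≤ 1 := by
    intro p
    have hp1 : (1 : ℝ) ≤ ((p : ℕ) : ℝ) := by
      exact_mod_cast p.2.one_lt.le
    exact ⟨Real.rpow_nonneg (by linarith) _, Real.rpow_le_one_of_one_le_of_nonpos hp1 (by linarith)⟩
  have hterm : ∀ p : Nat.Primes, (orderOf g : ℝ) *
      (if (p : ℕ) ≡ r [MOD m] then (nF p : ℝ) * ((p : ℕ) : ℝ) ^ (-s) else 0) ≤
      (cg : ℝ) * ((cv p : ℝ) * ((p : ℕ) : ℝ) ^ (-s)) +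
        (if (p : ℕ) ∣ D then (orderOf g : ℝ) * (nF p : ℝ) else 0) := by
    intro p
    obtain ⟨hp0, hp1⟩ := hpw p
    have hn : 0 ≤ (orderOf g : ℝ) * (nF p : ℝ) := by positivity
    have hc : 0 ≤ (cg : ℝ) * ((cv p : ℝ) * ((p : ℕ) : ℝ) ^ (-s)) := by positivity
    by_cases hr : (p : ℕ) ≡ r [MOD m]
    · rw [if_pos hr]
      by_cases hpD : (p : ℕ) ∣ D
      · rw [if_pos hpD]
        have h2 : (orderOf g : ℝ) * (nF p : ℝ) * ((p : ℕ) : ℝ) ^ (-s) ≤
            (orderOf g : ℝ) * (nF p : ℝ) * 1 := mul_le_mul_of_nonneg_left hp1 hn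
        linarith
      · rw [if_neg hpD, add_zero]
        have h3 : (orderOf g : ℝ) * (nF p : ℝ) ≤ (cg : ℝ) * (cv p : ℝ) := by
          exact_mod_cast hN' p p.2 hpD hr
        have h4 := mul_le_mul_of_nonneg_right h3 hp0
        linarith
    · rw [if_neg hr, mul_zero]
      by_cases hpD : (p : ℕ) ∣ D
      · rw [if_pos hpD]
        exact add_nonneg hc hn
      · rw [if_neg hpD, add_zero]
        exact hc
  have hnn : ∀ p : Nat.Primes, 0 ≤ (orderOf g : ℝ) *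
      (if (p : ℕ) ≡ r [MOD m] then (nF p : ℝ) * ((p : ℕ) : ℝ) ^ (-s) else 0) := by
    intro p
    have := (hpw p).1
    split_ifs
    · positivity
    · positivity
  have hR : Summable (fun p : Nat.Primes => (cg : ℝ) * ((cv p : ℝ) * ((p : ℕ) : ℝ) ^ (-s)) +
      (if (p : ℕ) ∣ D then (orderOf g : ℝ) * (nF p : ℝ) else 0)) := (hS'.mul_left _).add hsum2
  have hL := Summable.of_nonneg_of_le hnn hterm hR
  have h5 := hL.tsum_le_tsum hterm hR
  rw [tsum_mul_left, (hS'.mul_left _).tsum_add hsum2, tsum_mul_left, ← hDS'] at h5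
  rw [hnF] at h5 ⊢
  rw [hcg] at h5
  linarith

end Pool.Agent.CD
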